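import Pool.Agent.H37.CNP.Stmts

set_option autoImplicit false

namespace Pool.CND

open Polynomial

/-- the degree of `h ^ p - h` -/
theorem asr_natDegree {k : Type} [Field k] {p : ℕ} (hp : p.Prime) (h : Polynomial k)
    (hd : 1 ≤ h.natDegree) : (h ^ p - h).natDegree = p * h.natDegree := by
  have h1 : (h ^ p).natDegree = p * h.natDegree := Polynomial.natDegree_pow h p
  rw [Polynomial.natDegree_sub_eq_left_of_natDegree_lt, h1]
  rw [h1]
  have := hp.two_le
  nlinarith

theorem asr_thm : S_ASR := by
  intro p k _ f r D hp hc hD hpD hdeg u hu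
  have := Fact.mk hp
  have := hc
  have hint : IsIntegral (Polynomial k) u := by
    refine ⟨(X ^ p - X - C f : Polynomial (Polynomial k)), ?_, ?_⟩
    · have e : (X ^ p - X - C f : Polynomial (Polynomial k)) = X ^ p - (X + C f) := by ring
      rw [e]
      refine Polynomial.monic_X_pow_sub ?_
      refine lt_of_le_of_lt (Polynomial.degree_add_le _ _) ?_
      refine max_lt ?_ ?_
      · rw [Polynomial.degree_X]; exact_mod_cast hp.one_lt
      · refine lt_of_le_of_lt Polynomial.degree_C_le ?_
        exact_mod_cast hp.pos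
    · simp only [eval₂_sub, eval₂_pow, eval₂_X, eval₂_C]
      rw [hu, sub_self]
  obtain ⟨g, hg⟩ := (IsIntegrallyClosed.isIntegral_iff).1 hint
  have h1 : g ^ p - g = f := by
    apply (IsFractionRing.injective (Polynomial k) (RatFunc k))
    rw [map_sub, map_pow, hg, hu]
  have h2 : f - (r ^ p - r) = (g - r) ^ p - (g - r) := by
    rw [sub_pow_char, ← h1]; ring
  rw [h2] at hdeg
  by_cases h3 : 1 ≤ (g - r).natDegree
  · rw [asr_natDegree hp _ h3] at hdeg
    exact hpD ⟨_, hdeg.symm⟩
  · have h4 : (g - r).natDegree = 0 := by omega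
    rw [Polynomial.eq_C_of_natDegree_eq_zero h4, ← C_pow, ← C_sub, natDegree_C] at hdeg
    omega

end Pool.CND
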