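import Pool.Agent.H37.CNP.Stmts

set_option autoImplicit false

/-! POL, part B: differences -/

namespace Pool.CND

open Polynomial Finset

section
variable {k : Type} [Field k]

/-- `binom(X, j)` -/
noncomputable def pb (k : Type) [Field k] (j : ℕ) : k[X] :=
  C (((Nat.factorial j : ℕ) : k)⁻¹) * descPochhammer k j

theorem pb_zero : pb k 0 = 1 := by simp [pb]

theorem pb_natDegree_le (j : ℕ) : (pb k j).natDegree ≤ j := by
  refine (natDegree_C_mul_le _ _).trans ?_
  rw [descPochhammer_natDegree]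

theorem pb_eval_zero {j : ℕ} (hj : j ≠ 0) : (pb k j).eval 0 = 0 := by
  rw [pb, eval_mul, descPochhammer_ne_zero_eval_zero k hj, mul_zero]

theorem desc_shift (n : ℕ) : (descPochhammer k (n + 1)).comp (X + 1) =
    descPochhammer k (n + 1) + C ((n + 1 : ℕ) : k) * descPochhammer k n := by
  have h := descPochhammer_succ_comp_X_sub_one (R := k) n
  have h1 := congrArg (fun q : k[X] => q.comp (X + 1)) h
  simp only [smul_eq_mul, sub_comp, mul_comp, comp_assoc, X_comp, one_comp, add_sub_cancel_right,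
    comp_X, add_comp, natCast_comp] at h1
  have e : (C ((n + 1 : ℕ) : k) : k[X]) = (n : k[X]) + 1 := by
    push_cast; simp
  rw [e]
  linear_combination -h1

theorem pb_shift {p : ℕ} (hp : p.Prime) [CharP k p] {j : ℕ} (hj : j + 1 < p) :
    (pb k (j + 1)).comp (X + 1) = pb k (j + 1) + pb k j := by
  have hf : ((j + 1 : ℕ) : k) ≠ 0 := by
    rw [Ne, CharP.cast_eq_zero_iff k p]
    exact fun h => absurd (Nat.le_of_dvd (Nat.succ_pos j) h) (by omega)
  have h1 : (((Nat.factorial (j + 1) : ℕ) : k)⁻¹) * ((j + 1 : ℕ) : k) =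
      (((Nat.factorial j : ℕ) : k)⁻¹) := by
    rw [Nat.factorial_succ, Nat.cast_mul, mul_inv, mul_comm (((j + 1 : ℕ) : k)⁻¹), mul_assoc,
      inv_mul_cancel₀ hf, mul_one]
  rw [pb, pb, mul_comp, C_comp, desc_shift, mul_add, ← mul_assoc, ← C_mul, h1]

/-- antidifferences of `X ^ a`, `a + 1 < p` -/
theorem exists_antidiff {p : ℕ} (hp : p.Prime) [CharP k p] : ∀ a : ℕ, a + 1 < p →
    ∃ Q : k[X], Q.comp (X + 1) = Q + X ^ a := by
  intro a
  induction a using Nat.strong_induction_on with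
  | _ a ih =>
    intro ha
    have hf : ((a + 1 : ℕ) : k) ≠ 0 := by
      rw [Ne, CharP.cast_eq_zero_iff k p]
      exact fun h => absurd (Nat.le_of_dvd (Nat.succ_pos a) h) (by omega)
    choose Q hQ using ih
    classical
    refine ⟨C (((a + 1 : ℕ) : k)⁻¹) * (X ^ (a + 1) - ∑ i ∈ (range a).attach,
      C ((Nat.choose (a + 1) i : ℕ) : k) *
        Q i (mem_range.1 i.2) (by have := mem_range.1 i.2; omega)), ?_⟩
    have h1 : ((X : k[X]) + 1) ^ (a + 1) = X ^ (a + 1) + C ((a + 1 : ℕ) : k) * X ^ a +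
        ∑ i ∈ (range a).attach, C ((Nat.choose (a + 1) i : ℕ) : k) * X ^ (i : ℕ) := by
      rw [add_pow, Finset.sum_range_succ, Finset.sum_range_succ, Finset.sum_attach (range a)
        (fun i => C ((Nat.choose (a + 1) i : ℕ) : k) * X ^ (i : ℕ))]
      simp only [one_pow, mul_one, Nat.choose_self, Nat.cast_one, Nat.choose_succ_self_right]
      have h2 : ∑ i ∈ range a, (X : k[X]) ^ i * ((Nat.choose (a + 1) i : ℕ) : k[X]) =
          ∑ i ∈ range a, C ((Nat.choose (a + 1) i : ℕ) : k) * X ^ (i : ℕ) :=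
        Finset.sum_congr rfl fun i _ => by rw [← C_eq_natCast]; ring
      rw [h2, ← C_eq_natCast]; ring
    have h3 : (C (((a + 1 : ℕ) : k)⁻¹) : k[X]) * C ((a + 1 : ℕ) : k) = 1 := by
      rw [← C_mul, inv_mul_cancel₀ hf, C_1]
    rw [mul_comp, C_comp, sub_comp, pow_comp, X_comp, Polynomial.sum_comp]
    have h4 : ∑ x ∈ (range a).attach, (C ((Nat.choose (a + 1) x : ℕ) : k) *
          Q x (mem_range.1 x.2) (by have := mem_range.1 x.2; omega)).comp (X + 1) =
        ∑ x ∈ (range a).attach, C ((Nat.choose (a + 1) x : ℕ) : k) *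
          Q x (mem_range.1 x.2) (by have := mem_range.1 x.2; omega) +
        ∑ i ∈ (range a).attach, C ((Nat.choose (a + 1) i : ℕ) : k) * X ^ (i : ℕ) := by
      rw [← Finset.sum_add_distrib]
      refine Finset.sum_congr rfl fun i _ => ?_
      rw [mul_comp, C_comp, hQ, mul_add]
    rw [h4, h1]
    linear_combination (X ^ a : k[X]) * h3

/-- a polynomial with difference `X ^ (p - 1) - X ^ (p (p - 1))` -/
theorem exists_G {p : ℕ} (hp : p.Prime) [CharP k p] :
    ∃ G : k[X], G.comp (X + 1) = G + (X ^ (p - 1) - (X ^ (p - 1)) ^ p) := by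
  have hfact := Fact.mk hp
  have hq : ∀ a : ℕ, ∃ Q : k[X], a + 1 < p → Q.comp (X + 1) = Q + X ^ a := fun a => by
    by_cases h : a + 1 < p
    · obtain ⟨Q, hQ⟩ := exists_antidiff (k := k) hp a h
      exact ⟨Q, fun _ => hQ⟩
    · exact ⟨0, fun h' => absurd h' h⟩
  choose Q hQ using hq
  obtain ⟨q, hpq⟩ : ∃ q, p = q + 1 := ⟨p - 1, by have := hp.pos; omega⟩
  have hT : ((X ^ p - X : k[X])).comp (X + 1) = X ^ p - X := by
    rw [sub_comp, pow_comp, X_comp, add_pow_char, one_pow]; ring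
  refine ⟨- ∑ a ∈ range q, C ((Nat.choose q a : ℕ) : k) * ((X ^ p - X) ^ (q - a) * Q a), ?_⟩
  rw [neg_comp, Polynomial.sum_comp]
  have h1 : ∑ a ∈ range q, (C ((Nat.choose q a : ℕ) : k) *
      ((X ^ p - X) ^ (q - a) * Q a)).comp (X + 1) =
      ∑ a ∈ range q, C ((Nat.choose q a : ℕ) : k) * ((X ^ p - X) ^ (q - a) * Q a) +
      ∑ a ∈ range q, X ^ a * (X ^ p - X) ^ (q - a) * ((Nat.choose q a : ℕ) : k[X]) := by
    rw [← Finset.sum_add_distrib]
    refine Finset.sum_congr rfl fun a ha => ?_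
    have := mem_range.1 ha
    rw [mul_comp, C_comp, mul_comp, pow_comp, hT, hQ a (by omega), ← C_eq_natCast]
    ring
  have h2 : (X + (X ^ p - X) : k[X]) ^ q =
      ∑ a ∈ range q, X ^ a * (X ^ p - X) ^ (q - a) * ((Nat.choose q a : ℕ) : k[X]) + X ^ q := by
    rw [add_pow, Finset.sum_range_succ]
    simp
  have h3 : (X + (X ^ p - X) : k[X]) ^ q = (X ^ q) ^ p := by
    rw [add_sub_cancel, ← pow_mul, ← pow_mul, mul_comm]
  have e : p - 1 = q := by omega
  rw [h1, e]
  linear_combination h2 - h3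

/-- the trace of `X ^ (p - 1)` -/
theorem trace_pow {p : ℕ} (hp : p.Prime) [CharP k p] :
    ∑ l ∈ range p, ((X : k[X]) + (l : k[X])) ^ (p - 1) = -1 := by
  have hfact := Fact.mk hp
  have hs : ∀ j : ℕ, ∑ l ∈ range p, ((l : ℕ) : k[X]) ^ j =
      C (ZMod.castHom (dvd_refl p) k (∑ x : ZMod p, x ^ j)) := by
    intro j
    rw [map_sum, map_sum]
    refine Finset.sum_nbij' (fun l => (l : ZMod p)) ZMod.val ?_ ?_ ?_ ?_ ?_
    · intro a _; exact Finset.mem_univ _
    · intro a _; exact mem_range.2 (ZMod.val_lt a)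
    · intro a ha; exact ZMod.val_cast_of_lt (mem_range.1 ha)
    · intro a _; exact ZMod.natCast_zmod_val a
    · intro a _; simp
  have hc : Fintype.card (ZMod p) = p := ZMod.card p
  have h0 : ∀ j : ℕ, j < p - 1 → ∑ l ∈ range p, ((l : ℕ) : k[X]) ^ j = 0 := by
    intro j hj
    rw [hs, FiniteField.sum_pow_lt_card_sub_one (K := ZMod p) j (by rw [hc]; exact hj), map_zero,
      C_0]
  have h1 : ∑ l ∈ range p, ((l : ℕ) : k[X]) ^ (p - 1) = -1 := by
    rw [hs]
    have h2 : ∑ x : ZMod p, x ^ (p - 1) = -1 := by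
      classical
      have h3 : ∀ x : ZMod p, x ^ (p - 1) = 1 - if x = 0 then 1 else 0 := by
        intro x
        by_cases hx : x = 0
        · subst hx
          have : p - 1 ≠ 0 := by have := hp.two_le; omega
          simp [this]
        · simp [hx, ZMod.pow_card_sub_one_eq_one hx]
      rw [Finset.sum_congr rfl fun x _ => h3 x, Finset.sum_sub_distrib, Finset.sum_ite_eq']
      simp
    rw [h2]; simp
  have h4 : ∀ l : ℕ, ((X : k[X]) + (l : k[X])) ^ (p - 1) =
      ∑ j ∈ range (p - 1 + 1), X ^ j * (l : k[X]) ^ (p - 1 - j) *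
        ((Nat.choose (p - 1) j : ℕ) : k[X]) := fun l => add_pow _ _ _
  rw [Finset.sum_congr rfl fun l _ => h4 l, Finset.sum_comm, Finset.sum_range_succ']
  have h5 : ∀ j ∈ range (p - 1), ∑ l ∈ range p, X ^ (j + 1) * (l : k[X]) ^ (p - 1 - (j + 1)) *
        ((Nat.choose (p - 1) (j + 1) : ℕ) : k[X]) = 0 := by
    intro j hj
    have hj' := mem_range.1 hj
    have : ∑ l ∈ range p, X ^ (j + 1) * (l : k[X]) ^ (p - 1 - (j + 1)) *
        ((Nat.choose (p - 1) (j + 1) : ℕ) : k[X]) =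
        X ^ (j + 1) * ((Nat.choose (p - 1) (j + 1) : ℕ) : k[X]) *
          ∑ l ∈ range p, (l : k[X]) ^ (p - 1 - (j + 1)) := by
      rw [Finset.mul_sum]
      exact Finset.sum_congr rfl fun l _ => by ring
    rw [this, h0 _ (by omega), mul_zero]
  rw [Finset.sum_eq_zero h5, zero_add]
  simpa using h1

end

end Pool.CND
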