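import Pool.Agent.H47.CNP.POLA

set_option autoImplicit false

/-! POL, part C: the generic part -/

namespace Pool.CND

open Polynomial Finset

section
variable {k : Type} [Field k]

theorem pol_term {p : ℕ} (hp : p.Prime) {q : k[X]} (hq : q.natDegree ≤ p - 1) (M : ℕ) :
    ((pT p : k[X]) ^ M * q).natDegree ≤ M * p + (p - 1) :=
  natDegree_mul_le.trans (Nat.add_le_add ((pdg_T (k := k) hp).pow M).1 hq)

theorem pol_low {p n K : ℕ} (hp : p.Prime) (q : Fin n → k[X]) (hq : ∀ i, (q i).natDegree ≤ p - 1)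
    (g : k[X]) (hg : g.natDegree ≤ K) :
    (g + ∑ i : Fin n, (pT p : k[X]) ^ (p * (i + K) + 1) * q i).natDegree ≤
      p * (p * (n + K) + 1) + p := by
  have hp1 := hp.one_lt
  have hKK : K ≤ p * (p * (n + K) + 1) + p := by
    have h1 : K ≤ n + K := Nat.le_add_left _ _
    have h2 : n + K ≤ p * (n + K) := Nat.le_mul_of_pos_left _ hp.pos
    have h3 : p * (n + K) + 1 ≤ p * (p * (n + K) + 1) := Nat.le_mul_of_pos_left _ hp.pos
    omega
  refine (natDegree_add_le _ _).trans (max_le (hg.trans hKK) ?_)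
  refine natDegree_sum_le_of_forall_le _ _ fun i _ => (pol_term hp (hq i) _).trans ?_
  have h1 : p * ((i : ℕ) + K) ≤ p * (n + K) := Nat.mul_le_mul_left _ (by have := i.2; omega)
  have h2 : (p * ((i : ℕ) + K) + 1) * p ≤ p * (p * (n + K) + 1) := by
    rw [Nat.mul_comm]
    exact Nat.mul_le_mul_left _ (by omega)
  omega

theorem pol_case3 {p n K : ℕ} (hp : p.Prime) (hp3 : 3 ≤ p) [CharP k p] [IsAlgClosed k]
    (q : Fin n → k[X]) (hq : ∀ i, (q i).natDegree ≤ p - 1) (g : k[X]) (hg : g.natDegree < K)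
    (hne : ∃ i, q i ≠ 0) :
    ∃ D, 1 ≤ D ∧ ¬ p ∣ D ∧
      PRd p (g + ∑ i : Fin n, (pT p : k[X]) ^ (p * (i + K) + 1) * q i) D := by
  classical
  obtain ⟨i0, hi0, hmax⟩ : ∃ i0, q i0 ≠ 0 ∧ ∀ i, i0 < i → q i = 0 := by
    obtain ⟨i, hi⟩ := hne
    have hnon : (Finset.univ.filter fun i => q i ≠ 0).Nonempty := ⟨i, by simp [hi]⟩
    refine ⟨(Finset.univ.filter fun i => q i ≠ 0).max' hnon, ?_, ?_⟩
    · have := Finset.max'_mem _ hnon
      exact (Finset.mem_filter.1 this).2
    · intro i hi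
      by_contra hcon
      exact absurd (Finset.le_max' _ i (Finset.mem_filter.2 ⟨Finset.mem_univ _, hcon⟩)) (not_le.2 hi)
  set M0 := p * ((i0 : ℕ) + K) + 1 with hM0
  have hM1 : 2 ≤ M0 := by
    have : 1 ≤ (i0 : ℕ) + K := by omega
    have := Nat.mul_le_mul_left p this
    omega
  have hpM : ¬ p ∣ M0 := by
    intro h
    have h1 : p ∣ 1 := (Nat.dvd_add_right (Dvd.intro _ rfl)).1 h
    have := Nat.le_of_dvd one_pos h1
    omega
  -- the lower part
  set lo := g + ∑ i ∈ Finset.univ.erase i0, (pT p : k[X]) ^ (p * ((i : ℕ) + K) + 1) * q i with hlo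
  have hsplit : g + ∑ i : Fin n, (pT p : k[X]) ^ (p * (i + K) + 1) * q i =
      (pT p : k[X]) ^ M0 * q i0 + lo := by
    rw [hlo, ← Finset.add_sum_erase _ _ (Finset.mem_univ i0)]
    ring
  have hlod : lo.natDegree < p * (M0 - 1) + 1 := by
    have e0 : M0 - 1 = p * ((i0 : ℕ) + K) := by omega
    rw [e0]
    have hKb : K ≤ p * (p * ((i0 : ℕ) + K)) := by
      have h1 : K ≤ (i0 : ℕ) + K := Nat.le_add_left _ _
      have h2 := Nat.le_mul_of_pos_left ((i0 : ℕ) + K) hp.pos
      have h3 := Nat.le_mul_of_pos_left (p * ((i0 : ℕ) + K)) hp.pos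
      omega
    refine Nat.lt_succ_of_le ((natDegree_add_le _ _).trans (max_le (by omega) ?_))
    refine natDegree_sum_le_of_forall_le _ _ fun i hi => ?_
    rcases lt_trichotomy i i0 with hlt | heq | hgt
    · refine (pol_term hp (hq i) _).trans ?_
      have hlt' : (i : ℕ) + 1 ≤ i0 := hlt
      have h1 : p * ((i : ℕ) + K) + p ≤ p * ((i0 : ℕ) + K) := by
        rw [← Nat.mul_succ]
        exact Nat.mul_le_mul_left _ (by omega)
      have h2 : (p * ((i : ℕ) + K) + p) * p ≤ p * (p * ((i0 : ℕ) + K)) := by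
        rw [Nat.mul_comm]; exact Nat.mul_le_mul_left _ h1
      have h3 : (p * ((i : ℕ) + K) + 1) * p + (p - 1) ≤ (p * ((i : ℕ) + K) + p) * p := by
        have : (p * ((i : ℕ) + K) + 1 + 2) * p ≤ (p * ((i : ℕ) + K) + p) * p :=
          Nat.mul_le_mul_right _ (by omega)
        rw [Nat.add_mul _ 2] at this
        omega
      omega
    · exact absurd heq (Finset.ne_of_mem_erase hi)
    · rw [hmax i hgt, mul_zero, natDegree_zero]; exact Nat.zero_le _
  rw [hsplit]
  rcases Nat.eq_zero_or_pos (q i0).natDegree with h0 | hpos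
  · -- constant
    obtain ⟨c, hc⟩ : ∃ c, q i0 = C c := ⟨_, Polynomial.eq_C_of_natDegree_eq_zero h0⟩
    have hc0 : c ≠ 0 := fun h => hi0 (by rw [hc, h, C_0])
    refine ⟨p * (M0 - 1) + 1, by omega, ?_, ?_⟩
    · intro h
      have h1 : p ∣ 1 := (Nat.dvd_add_right (Dvd.intro _ rfl)).1 h
      have := Nat.le_of_dvd one_pos h1
      omega
    · rw [hc, mul_comm]
      exact prd_add hp (prd_T hp hc0 hM1 hpM) (plw_of_lt hp hlod)
  · refine ⟨M0 * p + (q i0).natDegree, by omega, ?_, ?_⟩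
    · intro h
      have h1 := (Nat.dvd_add_right (Dvd.intro_left _ rfl)).1 h
      have := Nat.le_of_dvd hpos h1
      have := hq i0
      omega
    · have hT0 : (pT p : k[X]) ^ M0 ≠ 0 := by
        intro h
        have := ((pdg_T (k := k) hp).pow M0).2
        rw [h] at this
        simp at this
      have hdeg : ((pT p : k[X]) ^ M0 * q i0).natDegree = M0 * p + (q i0).natDegree := by
        rw [natDegree_mul hT0 hi0]
        congr 1
        exact ((pdg_T (k := k) hp).pow M0).natDegree_eq (by simp)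
      refine prd_add hp (prd_of_eq hp hdeg) (plw_of_lt hp (lt_of_lt_of_le hlod ?_))
      have : p * (M0 - 1) ≤ M0 * p := by
        rw [Nat.mul_comm M0]; exact Nat.mul_le_mul_left _ (by omega)
      omega

end

end Pool.CND
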