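import Pool.Agent.H47.CNP.POLA
import Pool.Agent.H47.CNP.POLB
import Pool.Agent.H47.CNP.POLC

set_option autoImplicit false

/-! POL: the polynomials -/

namespace Pool.CND

open Polynomial Finset Matrix

/-- the unipotent vectors -/
theorem pol_vectors {p n : ℕ} (hp : p.Prime) (S : Matrix (Fin n) (Fin n) (ZMod p))
    (hS : S ^ p = 1) (hS1 : S ≠ 1) :
    (S - 1) ^ p = 0 ∧ ∃ h z : Fin n → ZMod p, z ≠ 0 ∧ S *ᵥ h = h + z ∧ S *ᵥ z = z := by
  have hfact := Fact.mk hp
  have hN : (S - 1) ^ p = 0 := by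
    have h1 : ((X : (ZMod p)[X]) - 1) ^ p = X ^ p - 1 := by
      rw [sub_pow_char, one_pow]
    have h2 := congrArg (Polynomial.aeval S) h1
    simp only [map_pow, map_sub, aeval_X, map_one] at h2
    rw [h2, hS, sub_self]
  refine ⟨hN, ?_⟩
  have hN1 : S - 1 ≠ 0 := sub_ne_zero.2 hS1
  have hex : ∃ s : ℕ, (S - 1) ^ s = 0 := ⟨p, hN⟩
  classical
  set s := Nat.find hex with hs
  have hs0 : (S - 1) ^ s = 0 := Nat.find_spec hex
  have hs2 : 2 ≤ s := by
    by_contra hlt
    have : s = 0 ∨ s = 1 := by omega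
    rcases this with h | h
    · rw [h, pow_zero] at hs0
      exact hN1 (by rw [← mul_one (S - 1), hs0, mul_zero])
    · rw [h, pow_one] at hs0
      exact hN1 hs0
  have hs1 : (S - 1) ^ (s - 1) ≠ 0 := fun h => by
    have := Nat.find_min' hex h
    omega
  have hv : ∃ v : Fin n → ZMod p, ((S - 1) ^ (s - 1)) *ᵥ v ≠ 0 := by
    by_contra hcon
    push Not at hcon
    apply hs1
    ext i j
    have := congrFun (hcon (Pi.single j 1)) i
    simpa using this
  obtain ⟨v, hv⟩ := hv
  refine ⟨((S - 1) ^ (s - 2)) *ᵥ v, ((S - 1) ^ (s - 1)) *ᵥ v, hv, ?_, ?_⟩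
  · have h1 : (S - 1) *ᵥ (((S - 1) ^ (s - 2)) *ᵥ v) = ((S - 1) ^ (s - 1)) *ᵥ v := by
      rw [Matrix.mulVec_mulVec, ← pow_succ']
      congr 2; omega
    rw [Matrix.sub_mulVec, Matrix.one_mulVec, sub_eq_iff_eq_add] at h1
    rw [h1, add_comm]
  · have h1 : (S - 1) *ᵥ (((S - 1) ^ (s - 1)) *ᵥ v) = 0 := by
      rw [Matrix.mulVec_mulVec, ← pow_succ']
      have : s - 1 + 1 = s := by omega
      rw [this, hs0, Matrix.zero_mulVec]
    rw [Matrix.sub_mulVec, Matrix.one_mulVec, sub_eq_zero] at h1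
    exact h1

section
variable {k : Type} [Field k]

/-- `F_p → k[X]` -/
noncomputable def ph (p : ℕ) (k : Type) [Field k] [CharP k p] : ZMod p →+* k[X] :=
  (C : k →+* k[X]).comp (ZMod.castHom (dvd_refl p) k)

/-- `binom(X, .)`-combination of the powers of `N` -/
noncomputable def pB (p : ℕ) (k : Type) [Field k] [CharP k p] {n : ℕ}
    (N : Matrix (Fin n) (Fin n) (ZMod p)) (i i' : Fin n) : k[X] :=
  ∑ j ∈ range p, pb k j * ph p k ((N ^ j) i i')

theorem ph_apply {p : ℕ} [CharP k p] (a : ZMod p) : ph p k a = C (fp k a) := rfl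

theorem ph_comp {p : ℕ} [CharP k p] (a : ZMod p) (q : k[X]) : (ph p k a).comp q = ph p k a := by
  rw [ph_apply, C_comp]

theorem pB_shift {p : ℕ} (hp : p.Prime) [CharP k p] {n : ℕ}
    (S : Matrix (Fin n) (Fin n) (ZMod p)) (hN : (S - 1) ^ p = 0) (i i' : Fin n) :
    (pB p k (S - 1) i i').comp (X + 1) = ∑ j, ph p k (S i j) * pB p k (S - 1) j i' := by
  set N := S - 1 with hNdef
  have hSN : S = 1 + N := by rw [hNdef]; abel
  obtain ⟨q, hpq⟩ : ∃ q, p = q + 1 := ⟨p - 1, by have := hp.pos; omega⟩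
  have hr : ∑ j, ph p k (S i j) * pB p k N j i' =
      ∑ j ∈ range p, pb k j * ph p k ((S * N ^ j) i i') := by
    simp only [pB, Finset.mul_sum]
    rw [Finset.sum_comm]
    refine Finset.sum_congr rfl fun j _ => ?_
    rw [Matrix.mul_apply, map_sum, Finset.mul_sum]
    refine Finset.sum_congr rfl fun l _ => ?_
    rw [map_mul]; ring
  rw [hr]
  have hr2 : ∀ j, pb k j * ph p k ((S * N ^ j) i i') =
      pb k j * ph p k ((N ^ j) i i') + pb k j * ph p k ((N ^ (j + 1)) i i') := by
    intro j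
    have : S * N ^ j = N ^ j + N ^ (j + 1) := by
      rw [pow_succ', hSN, add_mul, one_mul]
    rw [this, Matrix.add_apply, map_add, mul_add]
  rw [Finset.sum_congr rfl fun j _ => hr2 j, Finset.sum_add_distrib, pB, Polynomial.sum_comp]
  have hl : ∀ j, (pb k j * ph p k ((N ^ j) i i')).comp (X + 1) =
      (pb k j).comp (X + 1) * ph p k ((N ^ j) i i') := fun j => by
    rw [mul_comp, ph_comp]
  rw [Finset.sum_congr rfl fun j _ => hl j]
  have hrange : range p = range (q + 1) := by rw [hpq]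
  rw [hrange, Finset.sum_range_succ', Finset.sum_range_succ', Finset.sum_range_succ (n := q)]
  have hz : ph p k ((N ^ (q + 1)) i i') = 0 := by
    rw [← hpq, hN]; simp
  have h0 : (pb k 0).comp (X + 1) = pb k 0 := by rw [pb_zero, one_comp]
  have h1 : ∀ j ∈ range q, (pb k (j + 1)).comp (X + 1) * ph p k ((N ^ (j + 1)) i i') =
      pb k (j + 1) * ph p k ((N ^ (j + 1)) i i') + pb k j * ph p k ((N ^ (j + 1)) i i') := by
    intro j hj
    rw [pb_shift hp (by have := mem_range.1 hj; omega), add_mul]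
  rw [Finset.sum_congr rfl h1, Finset.sum_add_distrib, h0, hz]
  ring

/-- functionals of `pB` -/
theorem pB_fun {p : ℕ} (hp : p.Prime) [CharP k p] {n : ℕ}
    (N : Matrix (Fin n) (Fin n) (ZMod p)) (ℓ : Fin n → ZMod p) (i' : Fin n) :
    (∑ i, ph p k (ℓ i) * pB p k N i i').natDegree ≤ p - 1 ∧
      (∑ i, ph p k (ℓ i) * pB p k N i i').eval 0 = fp k (ℓ i') := by
  constructor
  · refine natDegree_sum_le_of_forall_le _ _ fun i _ => ?_
    rw [ph_apply]
    refine (natDegree_C_mul_le _ _).trans ?_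
    refine natDegree_sum_le_of_forall_le _ _ fun j hj => ?_
    rw [ph_apply]
    refine (natDegree_mul_C_le _ _).trans ((pb_natDegree_le j).trans ?_)
    have := mem_range.1 hj
    omega
  · have hB : ∀ i, (pB p k N i i').eval 0 = fp k ((1 : Matrix (Fin n) (Fin n) (ZMod p)) i i') := by
      intro i
      rw [pB, eval_finsetSum, Finset.sum_eq_single 0]
      · rw [pb_zero, one_mul, pow_zero, ph_apply, eval_C]
      · intro j _ hj
        rw [eval_mul, pb_eval_zero hj, zero_mul]
      · intro h; exact absurd (mem_range.2 hp.pos) h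
    rw [eval_finsetSum, Finset.sum_eq_single i']
    · rw [eval_mul, hB, ph_apply, eval_C, Matrix.one_apply_eq]
      simp [fp]
    · intro i _ hi
      rw [eval_mul, hB, Matrix.one_apply_ne hi]
      simp [fp]
    · intro h; exact absurd (Finset.mem_univ _) h

theorem fp_ne_zero {p : ℕ} (hp : p.Prime) [CharP k p] {a : ZMod p} (ha : a ≠ 0) :
    fp k a ≠ 0 := by
  have hfact := Fact.mk hp
  rw [fp, Ne, map_eq_zero]
  exact ha

theorem pol_sum {n : ℕ} (a e hh zz : Fin n → k[X]) (Bm : Fin n → Fin n → k[X])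
    (G X' Tm Tm1 U : k[X]) (TT : Fin n → k[X]) :
    ∑ j, a j * (e j * G + ((hh j + X' * zz j) * Tm + U * zz j * Tm1) + ∑ i', TT i' * Bm j i') =
      (∑ j, a j * e j) * G + ((∑ j, a j * hh j + X' * ∑ j, a j * zz j) * Tm +
        U * (∑ j, a j * zz j) * Tm1) + ∑ i', TT i' * ∑ j, a j * Bm j i' := by
  have h1 : ∑ i', TT i' * ∑ j, a j * Bm j i' = ∑ j, a j * ∑ i', TT i' * Bm j i' := by
    simp only [Finset.mul_sum]
    rw [Finset.sum_comm]
    exact Finset.sum_congr rfl fun j _ => Finset.sum_congr rfl fun i' _ => by ring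
  rw [h1]
  simp only [Finset.sum_mul, Finset.mul_sum, ← Finset.sum_add_distrib]
  refine Finset.sum_congr rfl fun j _ => ?_
  rw [← Finset.mul_sum]
  ring

theorem pol_thm : S_POL := by
  intro p k _ _ _ n S ε hp hp2 hSp hS1 hSε
  have hfact := Fact.mk hp
  have hp3 : 3 ≤ p := by
    have := hp.two_le
    rcases Nat.lt_or_ge 2 p with h | h
    · omega
    · exact absurd (le_antisymm h this) hp2
  obtain ⟨hN, h, z, hz, hSh, hSz⟩ := pol_vectors hp S hSp hS1
  obtain ⟨G, hG⟩ := exists_G (k := k) hp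
  set N := S - 1 with hNdef
  -- the exponents of the generic part
  set K : ℕ := G.natDegree + 1 with hK
  set M : Fin n → ℕ := fun i => p * (i + K) + 1 with hM
  set B0 : ℕ := p * (p * (n + K) + 1) + p with hB0
  refine ⟨z, hz, B0 + 2, fun m hm hpm hpm1 => ?_⟩
  set u : k := ((m + 1 : ℕ) : k)⁻¹ with hu
  set T : k[X] := pT p with hT
  have hTc : T.comp (X + 1) = T := by
    rw [hT, pT, sub_comp, pow_comp, X_comp, add_pow_char, one_pow]; ring
  set F : Fin n → k[X] := fun i => ph p k (ε i) * G + ((ph p k (h i) + X * ph p k (z i)) * T ^ m +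
    C u * ph p k (z i) * T ^ (m + 1)) + ∑ i', T ^ (M i') * pB p k N i i' with hF
  set Cc : Fin n → k[X] := fun i => - (ph p k (ε i) * X ^ (p - 1)) with hCc
  have hfp : ∀ a : ZMod p, (ph p k a) ^ p = ph p k a := by
    intro a
    rw [← map_pow, ZMod.pow_card]
  have hvec : ∀ (v w : Fin n → ZMod p), S *ᵥ v = w → ∀ i, ∑ j, ph p k (S i j) * ph p k (v j) =
      ph p k (w i) := by
    intro v w hvw i
    rw [← hvw, Matrix.mulVec, dotProduct, map_sum]
    exact Finset.sum_congr rfl fun j _ => (map_mul _ _ _).symm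
  refine ⟨F, Cc, ?_, ?_, ?_⟩
  · intro i
    have e1 : ∑ j, C (fp k (S i j)) * F j = ph p k (ε i) * G +
        ((ph p k (h i) + ph p k (z i) + X * ph p k (z i)) * T ^ m +
          C u * ph p k (z i) * T ^ (m + 1)) +
        ∑ i', T ^ (M i') * ∑ j, ph p k (S i j) * pB p k N j i' := by
      have a1 := hvec ε ε hSε i
      have a2 := hvec h (h + z) hSh i
      have a3 := hvec z z hSz i
      rw [Pi.add_apply, map_add] at a2
      have a4 := pol_sum (fun j => ph p k (S i j)) (fun j => ph p k (ε j)) (fun j => ph p k (h j))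
        (fun j => ph p k (z j)) (pB p k N) G X (T ^ m) (T ^ (m + 1)) (C u)
        (fun i' => T ^ (M i'))
      simp only [a1, a2, a3] at a4
      exact a4
    have e2 : (F i).comp (X + 1) = ph p k (ε i) * (G + (X ^ (p - 1) - (X ^ (p - 1)) ^ p)) +
        ((ph p k (h i) + (X + 1) * ph p k (z i)) * T ^ m + C u * ph p k (z i) * T ^ (m + 1)) +
        ∑ i', T ^ (M i') * ∑ j, ph p k (S i j) * pB p k N j i' := by
      simp only [hF, add_comp, mul_comp, pow_comp, hTc, ph_comp, X_comp, C_comp, hG,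
        Polynomial.sum_comp]
      congr 1
      refine Finset.sum_congr rfl fun i' _ => ?_
      rw [hNdef, pB_shift hp S hN i i']
    have e3 : (Cc i) ^ p = - (ph p k (ε i) * (X ^ (p - 1)) ^ p) := by
      have hodd : Odd p := hp.odd_of_ne_two hp2
      simp only [hCc]
      rw [hodd.neg_pow, mul_pow, hfp]
    rw [e1, e2, e3]
    simp only [hCc]
    ring
  · intro i
    have e1 : ∀ l : ℕ, ∑ j, C (fp k ((S ^ (p - 1 - l)) i j)) * (Cc j).comp (X + (l : k[X])) =
        - ph p k (ε i) * (X + (l : k[X])) ^ (p - 1) := by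
      intro l
      have hSl : ∀ a : ℕ, (S ^ a) *ᵥ ε = ε := by
        intro a
        induction a with
        | zero => rw [pow_zero, Matrix.one_mulVec]
        | succ a ih => rw [pow_succ, ← Matrix.mulVec_mulVec, hSε, ih]
      have e2 : ∑ j, ph p k ((S ^ (p - 1 - l)) i j) * ph p k (ε j) = ph p k (ε i) := by
        conv_rhs => rw [← hSl (p - 1 - l)]
        rw [Matrix.mulVec, dotProduct, map_sum]
        exact Finset.sum_congr rfl fun j _ => (map_mul _ _ _).symm
      rw [← e2, neg_mul, Finset.sum_mul, ← Finset.sum_neg_distrib]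
      refine Finset.sum_congr rfl fun j _ => ?_
      simp only [hCc]
      rw [neg_comp, mul_comp, ph_comp, pow_comp, X_comp, ← ph_apply]
      ring
    rw [Finset.sum_congr rfl fun l _ => e1 l, ← Finset.mul_sum, trace_pow hp, ph_apply]
    ring
  · intro ℓ hℓ
    set q : Fin n → k[X] := fun i' => ∑ i, ph p k (ℓ i) * pB p k N i i' with hq
    have hq1 : ∀ i', (q i').natDegree ≤ p - 1 := fun i' => (pB_fun hp N ℓ i').1
    have hq2 : ∀ i', (q i').eval 0 = fp k (ℓ i') := fun i' => (pB_fun hp N ℓ i').2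
    have hdot : ∀ v : Fin n → ZMod p, ∑ i, ph p k (ℓ i) * ph p k (v i) = C (fp k (ℓ ⬝ᵥ v)) := by
      intro v
      rw [← ph_apply, dotProduct, map_sum]
      exact Finset.sum_congr rfl fun j _ => (map_mul _ _ _).symm
    set α := fp k (ℓ ⬝ᵥ ε) with hα
    set β := fp k (ℓ ⬝ᵥ h) with hβ
    set γ := fp k (ℓ ⬝ᵥ z) with hγ
    have hf : ∑ i, C (fp k (ℓ i)) * F i = C γ * (X * T ^ m + C u * T ^ (m + 1)) + (C β * T ^ m +
        (C α * G + ∑ i', T ^ (M i') * q i')) := by
      have a4 := pol_sum (fun j => ph p k (ℓ j)) (fun j => ph p k (ε j)) (fun j => ph p k (h j))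
        (fun j => ph p k (z j)) (pB p k N) G X (T ^ m) (T ^ (m + 1)) (C u)
        (fun i' => T ^ (M i'))
      simp only [hdot] at a4
      refine Eq.trans a4 ?_
      simp only [hq]
      ring
    have hCG : (C α * G).natDegree < K := lt_of_le_of_lt (natDegree_C_mul_le _ _) (by omega)
    have hlow := pol_low (n := n) (K := K) hp q hq1 (C α * G) hCG.le
    have hB1 : B0 < p * (m - 1) := by
      have h1 : B0 + 1 ≤ m - 1 := by omega
      have h2 : m - 1 ≤ p * (m - 1) := Nat.le_mul_of_pos_left _ hp.pos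
      omega
    have hlow' : (C α * G + ∑ i', T ^ (M i') * q i').natDegree < p * (m - 1) :=
      lt_of_le_of_lt hlow hB1
    have hm2 : 2 ≤ m := by omega
    have hnd : ∀ s : ℕ, 1 ≤ s → s < p → ¬ p ∣ p * (m - 1) + s := by
      intro s hs1 hs2 hd
      have h1 := (Nat.dvd_add_right (Dvd.intro _ rfl)).1 hd
      have := Nat.le_of_dvd hs1 h1
      omega
    by_cases hγ0 : ℓ ⬝ᵥ z = 0
    swap
    · -- `ℓ z ≠ 0`
      have hγ1 : γ ≠ 0 := fp_ne_zero hp hγ0
      obtain ⟨r, hr⟩ := prd_add hp (prd_XT (k := k) hp hp2 hγ1 hm2 hpm hpm1)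
        (plw_add hp (plw_T (k := k) hp β hm2 (Nat.lt_succ_self (p * (m - 1) + 1)))
          (plw_of_lt hp (lt_trans hlow' (by omega))))
      refine ⟨p * (m - 1) + 2, r, by omega, hnd 2 (by omega) (by omega), ?_, fun _ => rfl⟩
      rw [hf]
      exact hr
    · have hγ1 : γ = 0 := by rw [hγ, hγ0]; simp [fp]
      by_cases hβ0 : ℓ ⬝ᵥ h = 0
      swap
      · have hβ1 : β ≠ 0 := fp_ne_zero hp hβ0
        obtain ⟨r, hr⟩ := prd_add hp (prd_T (k := k) hp hβ1 hm2 hpm)
          (plw_of_lt hp (lt_trans hlow' (by omega)))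
        refine ⟨p * (m - 1) + 1, r, by omega, hnd 1 (by omega) (by omega), ?_,
          fun hne => absurd hγ0 hne⟩
        rw [hf, hγ1, C_0, zero_mul, zero_add]
        exact hr
      · have hβ1 : β = 0 := by rw [hβ, hβ0]; simp [fp]
        have hne : ∃ i, q i ≠ 0 := by
          by_contra hcon
          push Not at hcon
          apply hℓ
          funext i
          have h1 := hq2 i
          rw [hcon i, eval_zero] at h1
          by_contra hcon2
          exact fp_ne_zero hp (k := k) hcon2 h1.symm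
        obtain ⟨D, hD1, hD2, r, hr⟩ := pol_case3 (K := K) hp hp3 q hq1 (C α * G) hCG hne
        refine ⟨D, r, hD1, hD2, ?_, fun hne => absurd hγ0 hne⟩
        rw [hf, hγ1, hβ1, C_0, zero_mul, zero_add, zero_mul, zero_add]
        exact hr

end

end Pool.CND
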