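import Pool.Agent.H37.CNP.Stmts

set_option autoImplicit false

/-! POL, part A: degrees modulo `r ^ p - r` -/

namespace Pool.CND

open Polynomial Finset

section
variable {k : Type} [Field k]

/-- reduced degree `D` -/
def PRd (p : ℕ) (f : k[X]) (D : ℕ) : Prop := ∃ r : k[X], (f - (r ^ p - r)).natDegree = D
/-- reduced degree less than `D` -/
def PLw (p : ℕ) (f : k[X]) (D : ℕ) : Prop := ∃ r : k[X], (f - (r ^ p - r)).natDegree < D
/-- degree at most `d`, coefficient `c` there -/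
def PDg (f : k[X]) (d : ℕ) (c : k) : Prop := f.natDegree ≤ d ∧ f.coeff d = c

theorem PDg.mul {f g : k[X]} {d e : ℕ} {a b : k} (hf : PDg f d a) (hg : PDg g e b) :
    PDg (f * g) (d + e) (a * b) := by
  refine ⟨(Polynomial.natDegree_mul_le).trans (Nat.add_le_add hf.1 hg.1), ?_⟩
  rw [Polynomial.coeff_mul_add_eq_of_natDegree_le hf.1 hg.1, hf.2, hg.2]

theorem PDg.pow {f : k[X]} {d : ℕ} {a : k} (hf : PDg f d a) (n : ℕ) :
    PDg (f ^ n) (n * d) (a ^ n) := by
  refine ⟨(Polynomial.natDegree_pow_le).trans (Nat.mul_le_mul_left _ hf.1), ?_⟩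
  rw [Polynomial.coeff_pow_of_natDegree_le hf.1, hf.2]

theorem PDg.sum {ι : Type} {s : Finset ι} {f : ι → k[X]} {d : ℕ} {a : ι → k}
    (h : ∀ i ∈ s, PDg (f i) d (a i)) : PDg (∑ i ∈ s, f i) d (∑ i ∈ s, a i) := by
  refine ⟨Polynomial.natDegree_sum_le_of_forall_le _ _ fun i hi => (h i hi).1, ?_⟩
  rw [Polynomial.finsetSum_coeff]
  exact Finset.sum_congr rfl fun i hi => (h i hi).2

theorem PDg.natDegree_eq {f : k[X]} {d : ℕ} {a : k} (hf : PDg f d a) (ha : a ≠ 0) :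
    f.natDegree = d :=
  Polynomial.natDegree_eq_of_le_of_coeff_ne_zero hf.1 (by rw [hf.2]; exact ha)

theorem plw_of_lt {p : ℕ} (hp : p.Prime) {f : k[X]} {D : ℕ} (h : f.natDegree < D) :
    PLw p f D := ⟨0, by simpa [hp.ne_zero] using h⟩

theorem prd_of_eq {p : ℕ} (hp : p.Prime) {f : k[X]} {D : ℕ} (h : f.natDegree = D) :
    PRd p f D := ⟨0, by simpa [hp.ne_zero] using h⟩

theorem plw_add {p : ℕ} (hp : p.Prime) [CharP k p] {f g : k[X]} {D : ℕ} (hf : PLw p f D)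
    (hg : PLw p g D) : PLw p (f + g) D := by
  have := Fact.mk hp
  obtain ⟨r, hr⟩ := hf
  obtain ⟨s, hs⟩ := hg
  refine ⟨r + s, ?_⟩
  have e : f + g - ((r + s) ^ p - (r + s)) = (f - (r ^ p - r)) + (g - (s ^ p - s)) := by
    rw [add_pow_char]; ring
  rw [e]
  exact lt_of_le_of_lt (Polynomial.natDegree_add_le _ _) (max_lt hr hs)

theorem prd_add {p : ℕ} (hp : p.Prime) [CharP k p] {f g : k[X]} {D : ℕ} (hf : PRd p f D)
    (hg : PLw p g D) : PRd p (f + g) D := by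
  have := Fact.mk hp
  obtain ⟨r, hr⟩ := hf
  obtain ⟨s, hs⟩ := hg
  refine ⟨r + s, ?_⟩
  have e : f + g - ((r + s) ^ p - (r + s)) = (f - (r ^ p - r)) + (g - (s ^ p - s)) := by
    rw [add_pow_char]; ring
  rw [e, Polynomial.natDegree_add_eq_left_of_natDegree_lt, hr]
  rw [hr]; exact hs

/-- `c X ^ (p M)` reduces to degree `≤ M` -/
theorem plw_pow {p : ℕ} (hp : p.Prime) [IsAlgClosed k] (c : k) {M D : ℕ} (h : M < D) :
    PLw p (C c * (X ^ p) ^ M) D := by
  obtain ⟨b, hb⟩ := IsAlgClosed.exists_pow_nat_eq c hp.pos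
  refine ⟨C b * X ^ M, ?_⟩
  have e : C c * (X ^ p) ^ M - ((C b * X ^ M) ^ p - C b * X ^ M) = C b * X ^ M := by
    rw [mul_pow, ← C_pow, hb, ← pow_mul, ← pow_mul, Nat.mul_comm M p]; ring
  rw [e]
  exact lt_of_le_of_lt (Polynomial.natDegree_C_mul_X_pow_le b M) h

/-- the polynomial `X ^ p - X` -/
noncomputable def pT (p : ℕ) : k[X] := X ^ p - X

theorem pdg_T {p : ℕ} (hp : p.Prime) : PDg (pT p : k[X]) p 1 := by
  have h1 : (X : k[X]).natDegree < (X ^ p : k[X]).natDegree := by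
    rw [natDegree_X, natDegree_X_pow]; exact hp.one_lt
  refine ⟨?_, ?_⟩
  · rw [pT, natDegree_sub_eq_left_of_natDegree_lt h1, natDegree_X_pow]
  · rw [pT, coeff_sub, coeff_X_pow_self, coeff_X_of_ne_one hp.one_lt.ne', sub_zero]

theorem pdg_A (p : ℕ) : PDg (X ^ p : k[X]) p 1 :=
  ⟨(natDegree_X_pow p).le, coeff_X_pow_self p⟩

/-- the geometric sums -/
noncomputable def pH (p j : ℕ) : k[X] := ∑ i ∈ range j, (pT p) ^ i * (X ^ p) ^ (j - 1 - i)

theorem pH_eq (p j : ℕ) : (pT p : k[X]) ^ j - (X ^ p) ^ j = - X * pH p j := by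
  have h := (Commute.all (pT p : k[X]) (X ^ p)).geom_sum₂_mul j
  rw [← h, pH, pT]; ring

theorem pdg_H {p : ℕ} (hp : p.Prime) (j : ℕ) : PDg (pH p j : k[X]) (p * (j - 1)) j := by
  have h : PDg (∑ i ∈ range j, (pT p : k[X]) ^ i * (X ^ p) ^ (j - 1 - i)) (p * (j - 1))
      (∑ i ∈ range j, (1 : k)) := by
    refine PDg.sum fun i hi => ?_
    have h1 := ((pdg_T (k := k) hp).pow i).mul ((pdg_A (k := k) p).pow (j - 1 - i))
    have e : i * p + (j - 1 - i) * p = p * (j - 1) := by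
      have := Finset.mem_range.1 hi
      rw [← Nat.add_mul, Nat.mul_comm]
      congr 1; omega
    rw [e] at h1
    simpa using h1
  rw [Finset.sum_const, Finset.card_range, nsmul_one] at h
  exact h

/-- `c T ^ M` has reduced degree `p (M - 1) + 1` -/
theorem prd_T {p : ℕ} (hp : p.Prime) [CharP k p] [IsAlgClosed k] {c : k} (hc : c ≠ 0) {M : ℕ}
    (hM : 2 ≤ M) (hpM : ¬ p ∣ M) : PRd p (C c * (pT p) ^ M) (p * (M - 1) + 1) := by
  have e : C c * (pT p : k[X]) ^ M = C (-c) * (X * pH p M) + C c * (X ^ p) ^ M := by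
    have := pH_eq (k := k) p M
    rw [sub_eq_iff_eq_add] at this
    rw [this, C_neg]; ring
  rw [e]
  refine prd_add hp (prd_of_eq hp ?_) (plw_pow hp c ?_)
  · have h1 : PDg (C (-c) : k[X]) 0 (-c) := ⟨by simp, by simp⟩
    have h2 : PDg (X : k[X]) 1 1 := ⟨by simp, by simp⟩
    have h3 := h1.mul (h2.mul (pdg_H (k := k) hp M))
    have h4 := h3.natDegree_eq (by
      rw [one_mul, neg_mul, neg_ne_zero]
      refine mul_ne_zero hc ?_
      rw [Ne, CharP.cast_eq_zero_iff k p]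
      exact hpM)
    rw [h4]; ring
  · have := hp.two_le
    obtain ⟨n, rfl⟩ : ∃ n, M = n + 2 := ⟨M - 2, by omega⟩
    have e2 : n + 2 - 1 = n + 1 := by omega
    rw [e2]
    nlinarith

theorem plw_T {p : ℕ} (hp : p.Prime) [CharP k p] [IsAlgClosed k] (c : k) {M D : ℕ}
    (hM : 2 ≤ M) (hD : p * (M - 1) + 1 < D) : PLw p (C c * (pT p) ^ M) D := by
  have e : C c * (pT p : k[X]) ^ M = C (-c) * (X * pH p M) + C c * (X ^ p) ^ M := by
    have := pH_eq (k := k) p M
    rw [sub_eq_iff_eq_add] at this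
    rw [this, C_neg]; ring
  rw [e]
  refine plw_add hp (plw_of_lt hp ?_) (plw_pow hp c ?_)
  · have h1 : PDg (C (-c) : k[X]) 0 (-c) := ⟨by simp, by simp⟩
    have h2 : PDg (X : k[X]) 1 1 := ⟨by simp, by simp⟩
    have h3 := h1.mul (h2.mul (pdg_H (k := k) hp M))
    refine lt_of_le_of_lt h3.1 ?_
    omega
  · have := hp.two_le
    obtain ⟨n, rfl⟩ : ∃ n, M = n + 2 := ⟨M - 2, by omega⟩
    have e2 : n + 2 - 1 = n + 1 := by omega
    rw [e2] at hD
    nlinarith

/-- `c (X T ^ m + T ^ (m + 1) / (m + 1))` has reduced degree `p (m - 1) + 2` -/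
theorem prd_XT {p : ℕ} (hp : p.Prime) (hp2 : p ≠ 2) [CharP k p] [IsAlgClosed k] {c : k}
    (hc : c ≠ 0) {m : ℕ} (hm : 2 ≤ m) (hpm : ¬ p ∣ m) (hpm1 : ¬ p ∣ (m + 1)) :
    PRd p (C c * (X * (pT p) ^ m + C (((m + 1 : ℕ) : k)⁻¹) * (pT p) ^ (m + 1)))
      (p * (m - 1) + 2) := by
  have hm1 : ((m + 1 : ℕ) : k) ≠ 0 := by
    rw [Ne, CharP.cast_eq_zero_iff k p]; exact hpm1
  have hm0 : ((m : ℕ) : k) ≠ 0 := by
    rw [Ne, CharP.cast_eq_zero_iff k p]; exact hpm
  set u : k := ((m + 1 : ℕ) : k)⁻¹ with hu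
  have hu1 : u * ((m + 1 : ℕ) : k) = 1 := inv_mul_cancel₀ hm1
  have e1 : (pT p : k[X]) ^ (m + 1) = - X * pH p (m + 1) + (X ^ p) ^ (m + 1) := by
    have := pH_eq (k := k) p (m + 1)
    rwa [sub_eq_iff_eq_add] at this
  -- `(m + 1) T ^ m - H_(m + 1) = - X * ∑_{i < m} T ^ i H_(m - i)`
  have e2 : ((m + 1 : ℕ) : k[X]) * (pT p) ^ m - pH p (m + 1) =
      - X * ∑ i ∈ range m, (pT p) ^ i * pH p (m - i) := by
    have h1 : ((m + 1 : ℕ) : k[X]) * (pT p) ^ m = ∑ i ∈ range (m + 1), (pT p : k[X]) ^ m := by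
      rw [Finset.sum_const, Finset.card_range, nsmul_eq_mul]
    rw [h1, pH, ← Finset.sum_sub_distrib, Finset.sum_range_succ, Finset.mul_sum]
    have h2 : (pT p : k[X]) ^ m - (pT p) ^ m * (X ^ p) ^ (m + 1 - 1 - m) = 0 := by
      have : m + 1 - 1 - m = 0 := by omega
      rw [this]; ring
    rw [h2, add_zero]
    refine Finset.sum_congr rfl fun i hi => ?_
    have hi' := Finset.mem_range.1 hi
    have h3 := pH_eq (k := k) p (m - i)
    have h4 : m + 1 - 1 - i = m - i := by omega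
    have h5 : (pT p : k[X]) ^ m = (pT p) ^ i * (pT p) ^ (m - i) := by
      rw [← pow_add]; congr 1; omega
    rw [h4, h5, ← mul_sub, h3]; ring
  have e3 : C c * (X * (pT p) ^ m + C u * (pT p) ^ (m + 1)) =
      C (-(c * u)) * (X * (X * ∑ i ∈ range m, (pT p) ^ i * pH p (m - i))) +
        C (c * u) * (X ^ p) ^ (m + 1) := by
    have h1 : (C u : k[X]) * ((m + 1 : ℕ) : k[X]) = 1 := by
      rw [← C_eq_natCast, ← C_mul, hu1, C_1]
    have h2 : X * (pT p : k[X]) ^ m = C u * X * (((m + 1 : ℕ) : k[X]) * (pT p) ^ m) := by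
      calc X * (pT p : k[X]) ^ m = (C u * ((m + 1 : ℕ) : k[X])) * (X * (pT p) ^ m) := by
            rw [h1, one_mul]
        _ = _ := by ring
    rw [e1, h2]
    rw [sub_eq_iff_eq_add] at e2
    rw [e2, C_neg, C_mul]
    ring
  rw [e3]
  refine prd_add hp (prd_of_eq hp ?_) (plw_pow hp _ ?_)
  · have h1 : PDg (C (-(c * u)) : k[X]) 0 (-(c * u)) := ⟨(natDegree_C _).le, coeff_C_zero⟩
    have h2 : PDg (X : k[X]) 1 1 := ⟨by simp, by simp⟩
    have h3 : PDg (∑ i ∈ range m, (pT p : k[X]) ^ i * pH p (m - i)) (p * (m - 1))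
        (∑ i ∈ range m, ((m - i : ℕ) : k)) := by
      refine PDg.sum fun i hi => ?_
      have hi' := Finset.mem_range.1 hi
      have h4 := ((pdg_T (k := k) hp).pow i).mul (pdg_H (k := k) hp (m - i))
      have e4 : i * p + p * (m - i - 1) = p * (m - 1) := by
        rw [Nat.mul_comm i p, ← Nat.mul_add]; congr 1; omega
      rw [e4] at h4
      simpa using h4
    have h5 := h1.mul (h2.mul (h2.mul h3))
    have h6 := h5.natDegree_eq (by
      rw [one_mul, one_mul, neg_mul, neg_ne_zero]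
      refine mul_ne_zero (mul_ne_zero hc (inv_ne_zero hm1)) ?_
      intro h0
      have h7 : (∑ i ∈ range m, (m - i)) * 2 = (m + 1) * m := by
        have h8 := Finset.sum_range_id_mul_two (m + 1)
        rw [← Finset.sum_range_reflect, Finset.sum_range_succ] at h8
        have h10 : ∑ x ∈ range m, (m + 1 - 1 - x) + (m + 1 - 1 - m) = ∑ i ∈ range m, (m - i) := by
          have : m + 1 - 1 - m = 0 := by omega
          rw [this, add_zero]
          exact Finset.sum_congr rfl fun i _ => by omega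
        rw [h10] at h8
        rw [h8]; simp
      rw [← Nat.cast_sum] at h0
      have h9 : (((∑ i ∈ range m, (m - i)) * 2 : ℕ) : k) = (((m + 1) * m : ℕ) : k) := by rw [h7]
      rw [Nat.cast_mul, h0, zero_mul, Nat.cast_mul] at h9
      exact mul_ne_zero hm1 hm0 h9.symm)
    rw [h6]; ring
  · have := hp.two_le
    have h3 : 3 ≤ p := by
      rcases Nat.lt_or_ge 2 p with h | h
      · omega
      · exact absurd (le_antisymm h this) hp2
    obtain ⟨n, rfl⟩ : ∃ n, m = n + 2 := ⟨m - 2, by omega⟩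
    have e2 : n + 2 - 1 = n + 1 := by omega
    rw [e2]
    nlinarith

end

end Pool.CND
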